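import Pool.Agent.Run7.h885.CL.Asm

/-!
# Wired clusters, interfaces and fixed sets

The random cluster model with `q = 1` at its self-dual point (critical bond percolation) on `δ ℤ²`
in a rectangle `D = (-A, B) × (0, H)` with Dobrushin boundary conditions: the counterclockwise
boundary arc from `a = t + i H` to `b = 0` is wired, the other one is free. `clusLaw R δ` is the law
of the open cluster of the wired arc (a compact set) and `R.law` the law of the trace of the
interface. Weak limits exist along a subsequence of every sequence of meshes (first two statements).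
For all weak limits:

* (capacity) on every compact subset `Q` of `D` the probability that the cluster meets a compact set
  `S ⊆ Q` is at least a constant times the capacity of `S` for the kernel `|z - w| ^ (-5/48)`, and
  for every `S ⊆ Q` it is at most a constant times the Hausdorff content of exponent `5/48` of `S`;
  the constants depend on `D` and `Q` only;
* (one cluster) for every countable union `S ⊆ D` of compact sets, the essential supremum of the
  Hausdorff dimension of the part of the cluster in `S` is exactly `dim S - 5/48` (truncated at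
  `0`);
* (several clusters and interfaces) for `j` clusters and `k` interfaces which are all independent,
  whose laws are arbitrary weak limits, the essential supremum of the dimension of the set of common
  points in `S` is `dim S - (5j/48 + k/4)`; there is no common point almost surely if
  `dim S < 5j/48 + k/4`, and there are some with positive probability if `5j/48 + k/4 < dim S`;
  in `D` the essential supremum is `2 - (5j/48 + k/4)`, there is no common point if
  `5j/48 + k/4 > 2`, there are some with positive probability if `5j/48 + k/4 < 2`; in particular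
  twenty or more independent wired clusters have no common point in `D`, and nineteen have some
  with positive probability.

Definitions: `Pool.Agent.Run7.h885.FS.Defs` (`energy`, `content`), `Pool.Agent.Run7.h885.CL.Defs`
(`IsC`, `IsT`: weak limits of the laws of the cluster and of the trace of the interface),
`Pool.Agent.H389R2.CD.Hit` (`cset`, `clus`, `clusLaw`), `Pool.Agent.H389R2.CD.Gen` (`lawP`),
`Pool.Agent.H934R2.Expl.Model` (`Rect`, `pt`, `Rect.D`, `Rect.edges`, `Rect.wired`, `Rect.outer`,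
`Rect.clu`, `Rect.dclu`, `Rect.path`, `Rect.law`).
-/

namespace Pool.Agent.Results.MP_b3e76a_pr.ClustersFixedSets

open H934E MeasureTheory TopologicalSpace Filter Topology Pool.Agent.Run7.h885.FS
  Pool.Agent.Run7.h885.CL
open scoped ENNReal

theorem result (R : Rect) :
    (∀ δ : ℕ → ℝ, (∀ i, 0 < δ i) → Tendsto δ atTop (𝓝 0) →
      ∃ φ : ℕ → ℕ, StrictMono φ ∧ ∃ μ : ProbabilityMeasure (NonemptyCompacts ℂ),
        Tendsto (fun i => Pool.Agent.H389R2.CD.clusLaw R (δ (φ i))) atTop (𝓝 μ)) ∧
    (∀ (δ : ℕ → ℝ) (hδ : ∀ i, 0 < δ i), Tendsto δ atTop (𝓝 0) →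
      ∃ φ : ℕ → ℕ, StrictMono φ ∧ ∃ μ : ProbabilityMeasure (NonemptyCompacts ℂ),
        Tendsto (fun i => R.law (hδ (φ i))) atTop (𝓝 μ)) ∧
    (∀ Q : Set ℂ, IsCompact Q → Q ⊆ R.D → ∃ c C : ℝ, 0 < c ∧ 0 < C ∧
      ∀ μ : ProbabilityMeasure (NonemptyCompacts ℂ), IsC R μ → ∀ S ⊆ Q,
        (IsCompact S → ∀ ν : Measure ℂ, IsFiniteMeasure ν → ν Sᶜ = 0 →
          ENNReal.ofReal c * ν S ^ 2 / energy (5 / 48) ν ≤
            (μ : Measure (NonemptyCompacts ℂ)) {K | ((K : Set ℂ) ∩ S).Nonempty}) ∧
        (μ : Measure (NonemptyCompacts ℂ)) {K | ((K : Set ℂ) ∩ S).Nonempty} ≤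
          ENNReal.ofReal C * content (5 / 48) S) ∧
    (∀ μ : ProbabilityMeasure (NonemptyCompacts ℂ), IsC R μ → ∀ S ⊆ R.D, IsSigmaCompact S →
      essSup (fun K : NonemptyCompacts ℂ => dimH (S ∩ (K : Set ℂ)))
        (μ : Measure (NonemptyCompacts ℂ)) = dimH S - 5 / 48) ∧
    (∀ (j k : ℕ) (μ : Fin j → ProbabilityMeasure (NonemptyCompacts ℂ))
      (ν : Fin k → ProbabilityMeasure (NonemptyCompacts ℂ)), (∀ i, IsC R (μ i)) →
      (∀ i, IsT R (ν i)) →
      ∀ π : Measure ((Fin j → NonemptyCompacts ℂ) × (Fin k → NonemptyCompacts ℂ)),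
      π = (Measure.pi fun i => (μ i : Measure (NonemptyCompacts ℂ))).prod
        (Measure.pi fun i => (ν i : Measure (NonemptyCompacts ℂ))) →
      (∀ S ⊆ R.D, IsSigmaCompact S →
        essSup (fun p : (Fin j → NonemptyCompacts ℂ) × (Fin k → NonemptyCompacts ℂ) =>
            dimH ((S ∩ ⋂ i, (p.1 i : Set ℂ)) ∩ ⋂ i, (p.2 i : Set ℂ))) π =
          dimH S - (j * (5 / 48) + k * (1 / 4)) ∧
        (dimH S < j * (5 / 48) + k * (1 / 4) →
          ∀ᵐ p ∂π, (S ∩ ⋂ i, (p.1 i : Set ℂ)) ∩ ⋂ i, (p.2 i : Set ℂ) = ∅) ∧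
        (j * (5 / 48) + k * (1 / 4) < dimH S →
          0 < π {p | ((S ∩ ⋂ i, (p.1 i : Set ℂ)) ∩ ⋂ i, (p.2 i : Set ℂ)).Nonempty})) ∧
      essSup (fun p : (Fin j → NonemptyCompacts ℂ) × (Fin k → NonemptyCompacts ℂ) =>
            dimH ((R.D ∩ ⋂ i, (p.1 i : Set ℂ)) ∩ ⋂ i, (p.2 i : Set ℂ))) π =
          2 - (j * (5 / 48) + k * (1 / 4)) ∧
      (2 < (j : ℝ) * (5 / 48) + (k : ℝ) * (1 / 4) →
          ∀ᵐ p ∂π, (R.D ∩ ⋂ i, (p.1 i : Set ℂ)) ∩ ⋂ i, (p.2 i : Set ℂ) = ∅) ∧
      ((j : ℝ) * (5 / 48) + (k : ℝ) * (1 / 4) < 2 →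
          0 < π {p | ((R.D ∩ ⋂ i, (p.1 i : Set ℂ)) ∩ ⋂ i, (p.2 i : Set ℂ)).Nonempty})) ∧
    (∀ (j : ℕ) (μ : Fin j → ProbabilityMeasure (NonemptyCompacts ℂ)), (∀ i, IsC R (μ i)) →
      (20 ≤ j → ∀ᵐ p ∂(Measure.pi fun i => (μ i : Measure (NonemptyCompacts ℂ))),
        R.D ∩ ⋂ i, (p i : Set ℂ) = ∅) ∧
      (j ≤ 19 → 0 < (Measure.pi fun i => (μ i : Measure (NonemptyCompacts ℂ)))
        {p | (R.D ∩ ⋂ i, (p i : Set ℂ)).Nonempty})) := by
  have e : ∀ j k : ℕ, (j : ℝ≥0∞) * (5 / 48) + k * (1 / 4) =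
      ENNReal.ofReal ((j : ℝ) * (5 / 48) + (k : ℝ) * (1 / 4)) := by
    intro j k
    rw [e548, Pool.Agent.Run7.h885.FS.quarter,
      ENNReal.ofReal_add (by positivity) (by positivity), ENNReal.ofReal_mul (by positivity),
      ENNReal.ofReal_mul (by positivity), ENNReal.ofReal_natCast, ENNReal.ofReal_natCast]
  have e2 : (2 : ℝ≥0∞) = ENNReal.ofReal 2 := by norm_num
  refine ⟨fun δ hδ hlim => Pool.Agent.H389R2.CD.clus_precompact R hδ hlim,
    fun δ hδ hlim => R.exists_limit hδ hlim, fun Q hQ hQD => cap_clus R hQ hQD,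
    fun μ hμ S hSD hS => one_clus R hμ hS hSD, ?_, ?_⟩
  · rintro j k μ ν hμ hν π rfl
    refine ⟨fun S hSD hS => many R hμ hν hS hSD, ?_⟩
    obtain ⟨h1, h2, h3⟩ := many R hμ hν (isSigmaCompact_D R) subset_rfl
    rw [dimH_D R] at h1 h2 h3
    refine ⟨h1, fun hk => h2 ?_, fun hk => h3 ?_⟩
    · rw [e, e2, ENNReal.ofReal_lt_ofReal_iff_of_nonneg (by norm_num)]
      exact hk
    · rw [e, e2, ENNReal.ofReal_lt_ofReal_iff_of_nonneg (by positivity)]
      exact hk
  · intro j μ hμ
    obtain ⟨h1, h2⟩ := codim_pi (G := id) measurable_id (μ := fun i =>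
      (μ i : Measure (NonemptyCompacts ℂ))) (fun i => inferInstance)
      (fun i => codim_clus R (hμ i)) (isSigmaCompact_D R) subset_rfl
    rw [dimH_D R] at h1 h2
    have e3 := e j 0
    simp only [Nat.cast_zero, zero_mul, add_zero] at e3
    constructor
    · intro hj
      filter_upwards [h1] with p hp
      apply hp.2
      rw [e3, e2, ENNReal.ofReal_lt_ofReal_iff_of_nonneg (by norm_num)]
      have : (20 : ℝ) ≤ j := by exact_mod_cast hj
      linarith
    · intro hj
      rw [pos_iff_ne_zero]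
      intro h0
      have h4 := h2 0 (by
        have h4 : ∀ᵐ p ∂(Measure.pi fun i => (μ i : Measure (NonemptyCompacts ℂ))),
            ¬ (R.D ∩ ⋂ i, (p i : Set ℂ)).Nonempty := by
          rw [ae_iff]
          simpa only [not_not] using h0
        filter_upwards [h4] with p hp
        have h5 : II R.D (fun i => id (p i)) = ∅ := Set.not_nonempty_iff_eq_empty.mp hp
        rw [h5, dimH_empty])
      rw [zero_add, e3, e2, ENNReal.ofReal_le_ofReal_iff (by positivity)] at h4
      have : (j : ℝ) ≤ 19 := by exact_mod_cast hj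
      linarith

end Pool.Agent.Results.MP_b3e76a_pr.ClustersFixedSets
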