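import Mathlib
import Pool.Agent.Run7.h663.PA.KFin

/-!
Critical bond percolation on `ε ℤ²` (`p = 1/2`, the FK model with `q = 1` at its self-dual point)
in a Jordan domain with `C^(1,α)` boundary: the connection functions of finitely many interior
vertices are determined, up to multiplicative constants which depend only on the domain, by the
two-point function. For three points they are given by the factorization formula
`P(x, y, v) ~ (P(x, y) P(x, v) P(y, v)) ^ (1/2)`, and by a conformally covariant expression.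
-/

set_option autoImplicit false

namespace Pool.Agent.Results.MP_b3e76a_pr.DomainConnectionFunctions

open MeasureTheory

/-- The square lattice: two points of `ℤ²` are adjacent when they differ by one in exactly one
coordinate. -/
def Z2 : SimpleGraph (ℤ × ℤ) where
  Adj u v := |u.1 - v.1| + |u.2 - v.2| = 1
  symm := ⟨fun u v h => by rw [abs_sub_comm v.1, abs_sub_comm v.2]; exact h⟩
  loopless := ⟨fun u h => by simp at h⟩

/-- Critical bond percolation: every edge of the square lattice is open (`true`) with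
probability `1/2`, independently of the other edges. -/
noncomputable def crit : Measure (Z2.edgeSet → Bool) :=
  Measure.infinitePi (fun _ => ProbabilityTheory.bernoulliMeasure true false
    ⟨1/2, by norm_num, by norm_num⟩)

/-- The position of the vertex `v` of the lattice `ε ℤ²` in the plane. -/
noncomputable def pos (ε : ℝ) (v : ℤ × ℤ) : ℂ := ⟨ε * v.1, ε * v.2⟩

/-- The graph of the open edges of `ε ℤ²` with both endpoints in `D`. -/
def openGraph (ε : ℝ) (D : Set ℂ) (ω : Z2.edgeSet → Bool) : SimpleGraph (ℤ × ℤ) :=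
  SimpleGraph.fromEdgeSet {e | (∃ h : e ∈ Z2.edgeSet, ω ⟨e, h⟩ = true) ∧ ∀ v ∈ e, pos ε v ∈ D}

/-- The two-point function of the domain `D`: the probability that an open path of `ε ℤ²` in `D`
joins the vertices `x` and `y`. -/
noncomputable def twoPoint (ε : ℝ) (D : Set ℂ) (x y : ℤ × ℤ) : ℝ :=
  crit.real {ω | (openGraph ε D ω).Reachable x y}

/-- The closed unit disc. -/
def disc : Set ℂ := Metric.closedBall 0 1

/-- `f` parametrizes a Jordan domain with `C^(1,α)` boundary, `0 < α ≤ 1`: it is injective and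
continuous on the closed unit disc, conformal in the open unit disc, and its derivative extends to a
Hölder continuous function `g` without zeros on the closed unit disc. -/
def Smooth (f : ℂ → ℂ) : Prop :=
  Set.InjOn f disc ∧ ContinuousOn f disc ∧ ∃ (g : ℂ → ℂ) (M α : ℝ), 0 < α ∧ α ≤ 1 ∧
    (∀ z, ‖z‖ < 1 → HasDerivAt f (g z) z) ∧ (∀ z ∈ disc, g z ≠ 0) ∧
    ∀ z ∈ disc, ∀ w ∈ disc, ‖g z - g w‖ ≤ M * ‖z - w‖ ^ α

/-- The conformal radius of the domain `f '' disc` seen from `f z`. -/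
noncomputable def confRad (f : ℂ → ℂ) (z : ℂ) : ℝ := ‖deriv f z‖ * (1 - ‖z‖ ^ 2)

/-- The pseudo-hyperbolic distance of two points of the unit disc, that is, of the points `f z` and
`f w` of the domain `f '' disc`. It is `tanh (ρ / 2)`, where `ρ` is the hyperbolic distance. -/
noncomputable def pseudo (z w : ℂ) : ℝ := ‖z - w‖ / ‖1 - (starRingEnd ℂ) z * w‖

/-- The probability that all the vertices of the finite set `X` are joined by open paths of
`ε ℤ²` in `D`: the connection function. -/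
noncomputable def connProb (ε : ℝ) (D : Set ℂ) (X : Finset (ℤ × ℤ)) : ℝ :=
  crit.real {ω | ∀ x ∈ X, ∀ y ∈ X, (openGraph ε D ω).Reachable x y}

/-- The conformally covariant three-point function, in terms of the conformal radii `r`, `s`, `t`
and of the pseudo-hyperbolic distances `q12`, `q13`, `q23`. -/
noncomputable def cov3 (ε r s t q12 q13 q23 : ℝ) : ℝ :=
  (ε / r) ^ (5 / 48 : ℝ) * (ε / s) ^ (5 / 48 : ℝ) * (ε / t) ^ (5 / 48 : ℝ) *
    ((q12 * q13 * q23) ^ (-(5 / 48 : ℝ)) *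
      ((1 - q12 ^ 2) * (1 - q13 ^ 2) * (1 - q23 ^ 2)) ^ (1 / 6 : ℝ))

open Y989.SD in
theorem openGraph_adj {f : ℂ → ℂ} {ε : ℝ} (h : ∀ v, v ∈ TD f ε ↔ Y989.SD.pos ε v ∈ f '' Y989.SD.disc)
    (ω : Z2.edgeSet → Bool) (u v : ℤ × ℤ) :
    (openGraph ε (f '' disc) ω).Adj u v ↔
      H974.Adj (H974.FF (H973.ES (TD f ε)) ω : Set H974.Edg) u v := by
  have hs : ∀ w, pos ε w ∈ f '' disc ↔ w ∈ TD f ε := fun w => (h w).symm
  unfold openGraph
  rw [SimpleGraph.fromEdgeSet_adj]
  constructor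
  · rintro ⟨⟨⟨h, hω⟩, hV⟩, hne⟩
    have hadj : (H974.openGraph ω).Adj u v := by
      unfold H974.openGraph
      rw [SimpleGraph.fromEdgeSet_adj]
      exact ⟨⟨h, hω⟩, hne⟩
    obtain ⟨e, he, hcase⟩ := (H974.openGraph_adj ω u v).mp hadj
    have hu : u ∈ TD f ε := (hs u).mp (hV u (Sym2.mem_mk_left u v))
    have hv : v ∈ TD f ε := (hs v).mp (hV v (Sym2.mem_mk_right u v))
    refine ⟨e, ?_, hcase⟩
    rw [Finset.mem_coe, H974.mem_FF, H973.mem_ES]
    refine ⟨?_, he⟩
    rcases hcase with ⟨h1, h2⟩ | ⟨h1, h2⟩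
    · rw [h1, h2]; exact ⟨hu, hv⟩
    · rw [h1, h2]; exact ⟨hv, hu⟩
  · rintro ⟨e, he, hcase⟩
    rw [Finset.mem_coe, H974.mem_FF, H973.mem_ES] at he
    have hadj : (H974.openGraph ω).Adj u v := (H974.openGraph_adj ω u v).mpr ⟨e, he.2, hcase⟩
    unfold H974.openGraph at hadj
    rw [SimpleGraph.fromEdgeSet_adj] at hadj
    refine ⟨⟨hadj.1, ?_⟩, hadj.2⟩
    intro w hw
    rw [hs]
    rcases Sym2.mem_iff.mp hw with rfl | rfl
    · rcases hcase with ⟨h1, h2⟩ | ⟨h1, h2⟩
      · rw [← h1]; exact he.1.1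
      · rw [← h2]; exact he.1.2
    · rcases hcase with ⟨h1, h2⟩ | ⟨h1, h2⟩
      · rw [← h2]; exact he.1.2
      · rw [← h1]; exact he.1.1

theorem twoPoint_eq {f : ℂ → ℂ} {ε : ℝ}
    (h : ∀ v, v ∈ Y989.SD.TD f ε ↔ Y989.SD.pos ε v ∈ f '' Y989.SD.disc) (x y : ℤ × ℤ) :
    twoPoint ε (f '' disc) x y = Run7.h663.PA.PP f ε x y := by
  have e : twoPoint ε (f '' disc) x y = (H974.bondLaw H974.hlf).real
      {ω | (openGraph ε (f '' disc) ω).Reachable x y} := rfl
  rw [e]
  have key : ∀ (ω : Z2.edgeSet → Bool) (u v : ℤ × ℤ), (openGraph ε (f '' disc) ω).Reachable u v ↔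
      H974.Reach (H974.FF (H973.ES (Y989.SD.TD f ε)) ω : Set H974.Edg) u v := by
    intro ω u v
    rw [SimpleGraph.reachable_iff_reflTransGen]
    have : (openGraph ε (f '' disc) ω).Adj =
        H974.Adj (H974.FF (H973.ES (Y989.SD.TD f ε)) ω : Set H974.Edg) := by
      funext u v
      exact propext (openGraph_adj h ω u v)
    rw [this]
    rfl
  have e2 : {ω : Z2.edgeSet → Bool | (openGraph ε (f '' disc) ω).Reachable x y} =
      {ω | (fun F : Finset H974.Edg => H974.Reach (F : Set H974.Edg) x y)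
        (H974.FF (H973.ES (Y989.SD.TD f ε)) ω)} := by
    ext ω
    exact key ω x y
  have h6 := H974.law_event H974.hlf (H973.ES (Y989.SD.TD f ε))
    (fun F : Finset H974.Edg => H974.Reach (F : Set H974.Edg) x y)
  exact (congrArg (fun s => (H974.bondLaw H974.hlf).real s) e2).trans h6

theorem connProb_eq {f : ℂ → ℂ} {ε : ℝ}
    (h : ∀ v, v ∈ Y989.SD.TD f ε ↔ Y989.SD.pos ε v ∈ f '' Y989.SD.disc)
    (X : Finset (ℤ × ℤ)) : connProb ε (f '' disc) X = Run7.h663.PA.KP f ε X := by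
  have e : connProb ε (f '' disc) X = (H974.bondLaw H974.hlf).real
      {ω | ∀ x ∈ X, ∀ y ∈ X, (openGraph ε (f '' disc) ω).Reachable x y} := rfl
  rw [e]
  have key : ∀ (ω : Z2.edgeSet → Bool) (u v : ℤ × ℤ), (openGraph ε (f '' disc) ω).Reachable u v ↔
      H974.Reach (H974.FF (H973.ES (Y989.SD.TD f ε)) ω : Set H974.Edg) u v := by
    intro ω u v
    rw [SimpleGraph.reachable_iff_reflTransGen]
    have : (openGraph ε (f '' disc) ω).Adj =
        H974.Adj (H974.FF (H973.ES (Y989.SD.TD f ε)) ω : Set H974.Edg) := by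
      funext u v
      exact propext (openGraph_adj h ω u v)
    rw [this]
    rfl
  have e2 : {ω : Z2.edgeSet → Bool | ∀ x ∈ X, ∀ y ∈ X,
      (openGraph ε (f '' disc) ω).Reachable x y} =
      {ω | (Run7.h663.PA.Conn X) (H974.FF (H973.ES (Y989.SD.TD f ε)) ω)} := by
    ext ω
    simp only [Set.mem_setOf_eq, key]
    rfl
  have h6 := H974.law_event H974.hlf (H973.ES (Y989.SD.TD f ε)) (Run7.h663.PA.Conn X)
  exact (congrArg (fun s => (H974.bondLaw H974.hlf).real s) e2).trans h6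

/-- **Connection functions of critical percolation in `C^(1,α)` Jordan domains.** Let `f` be a
parametrization of a Jordan domain `D = f '' disc` with `C^(1,α)` boundary and let `Q ≥ 1`. There
are constants `c, C, K > 0` such that the following holds for every mesh `ε` and every finite set
`X` of vertices of `ε ℤ²` in the interior of `D` at which the conformal radius of `D` is at least
`K ε` (`ζ u` is the point of the disc with `f (ζ u) = pos ε u`).

(1) Adding a point. If `x`, `y`, `v` are distinct vertices of `X` and the distance of `x` and `y` is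
at most `Q` times the smallest distance between two vertices of `X`, then the probability that all
the vertices of `X` are connected in `D` is, up to the constants `c` and `C`, the probability that
all the vertices of `X` other than `x` are connected in `D`, times
`(P(x ↔ y) P(x ↔ v) / P(y ↔ v)) ^ (1/2)`.

(2) Three points. If `X = {x, y, v}` with `x`, `y`, `v` distinct, then the probability that the
three vertices are connected in `D` is, up to the constants `c` and `C`, equal to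
`(P(x ↔ y) P(x ↔ v) P(y ↔ v)) ^ (1/2)`, and also to the conformally covariant expression
`cov3 ε r s t q12 q13 q23`, where `r`, `s`, `t` are the conformal radii of `D` seen from the three
vertices and `q12`, `q13`, `q23` their pseudo-hyperbolic distances in `D`. -/
theorem result (f : ℂ → ℂ) (hf : Smooth f) (Q : ℝ) (hQ : 1 ≤ Q) :
    ∃ c C K : ℝ, 0 < c ∧ 0 < C ∧ 0 < K ∧
    ∀ (ε : ℝ) (X : Finset (ℤ × ℤ)) (ζ : ℤ × ℤ → ℂ), 0 < ε →
      (∀ u ∈ X, ‖ζ u‖ < 1 ∧ f (ζ u) = pos ε u ∧ K * ε ≤ confRad f (ζ u)) →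
      ∀ x ∈ X, ∀ y ∈ X, ∀ v ∈ X, x ≠ y → x ≠ v → y ≠ v →
      ((∀ u ∈ X, ∀ u' ∈ X, u ≠ u' → ‖pos ε x - pos ε y‖ ≤ Q * ‖pos ε u - pos ε u'‖) →
        c * (√(twoPoint ε (f '' disc) x y * twoPoint ε (f '' disc) x v /
          twoPoint ε (f '' disc) y v) * connProb ε (f '' disc) (X.erase x)) ≤
          connProb ε (f '' disc) X ∧
        connProb ε (f '' disc) X ≤
          C * (√(twoPoint ε (f '' disc) x y * twoPoint ε (f '' disc) x v /
          twoPoint ε (f '' disc) y v) * connProb ε (f '' disc) (X.erase x))) ∧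
      (X = {x, y, v} →
        (c * √(twoPoint ε (f '' disc) x y * twoPoint ε (f '' disc) x v *
          twoPoint ε (f '' disc) y v) ≤ connProb ε (f '' disc) X ∧
        connProb ε (f '' disc) X ≤ C * √(twoPoint ε (f '' disc) x y *
          twoPoint ε (f '' disc) x v * twoPoint ε (f '' disc) y v)) ∧
        (c * cov3 ε (confRad f (ζ x)) (confRad f (ζ y)) (confRad f (ζ v))
          (pseudo (ζ x) (ζ y)) (pseudo (ζ x) (ζ v)) (pseudo (ζ y) (ζ v)) ≤
          connProb ε (f '' disc) X ∧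
        connProb ε (f '' disc) X ≤
          C * cov3 ε (confRad f (ζ x)) (confRad f (ζ y)) (confRad f (ζ v))
          (pseudo (ζ x) (ζ y)) (pseudo (ζ x) (ζ v)) (pseudo (ζ y) (ζ v)))) := by
  obtain ⟨hi, hc, g, M, α, ha0, ha1, hd, hn, hg⟩ := hf
  have hW : Y989.SD.SmW f g M α := Y989.SD.smW_of ha0 ha1 hi hc hd hn hg
  obtain ⟨c1, C1, K1, hc1, hC1, hK1, h1⟩ := Run7.h663.PA.main_k hW hQ
  obtain ⟨c2, C2, K2, hc2, hC2, hK2, h2⟩ := Run7.h663.PA.main_three hW
  obtain ⟨c3, C3, K3, hc3, hC3, hK3, h3⟩ := Run7.h663.PA.main_three' hW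
  obtain ⟨c4, C4, K4, hc4, hC4, hK4, h4⟩ := Run7.h663.PA.main_two hW
  refine ⟨min c1 (min c2 c3), max C1 (max C2 C3), K1 + K2 + K3 + K4,
    lt_min hc1 (lt_min hc2 hc3), lt_max_of_lt_left hC1, by positivity, ?_⟩
  intro ε X ζ hε hζ x hx y hy v hv hxy hxv hyv
  have hr : ∀ z : ℂ, ‖z‖ < 1 → confRad f z = ‖g z‖ * (1 - ‖z‖ ^ 2) := by
    intro z hz
    unfold confRad
    rw [(hd z hz).deriv]
  have hK : ∀ t : ℝ, (K1 + K2 + K3 + K4) * ε ≤ t →
      K1 * ε ≤ t ∧ K2 * ε ≤ t ∧ K3 * ε ≤ t ∧ K4 * ε ≤ t := by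
    intro t ht
    have q1 : 0 < K1 * ε := by positivity
    have q2 : 0 < K2 * ε := by positivity
    have q3 : 0 < K3 * ε := by positivity
    have q4 : 0 < K4 * ε := by positivity
    refine ⟨by nlinarith, by nlinarith, by nlinarith, by nlinarith⟩
  have hζ' : ∀ u ∈ X, ‖ζ u‖ < 1 ∧ f (ζ u) = Y989.SD.pos ε u ∧
      (K1 * ε ≤ ‖g (ζ u)‖ * (1 - ‖ζ u‖ ^ 2) ∧ K2 * ε ≤ ‖g (ζ u)‖ * (1 - ‖ζ u‖ ^ 2) ∧
      K3 * ε ≤ ‖g (ζ u)‖ * (1 - ‖ζ u‖ ^ 2) ∧ K4 * ε ≤ ‖g (ζ u)‖ * (1 - ‖ζ u‖ ^ 2)) := by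
    intro u hu
    obtain ⟨k1, k2, k3⟩ := hζ u hu
    rw [hr _ k1] at k3
    exact ⟨k1, k2, hK _ k3⟩
  obtain ⟨hz, hfz, kz1, kz2, kz3, kz4⟩ := hζ' x hx
  obtain ⟨hw, hfw, kw1, kw2, kw3, kw4⟩ := hζ' y hy
  obtain ⟨hu, hfu, ku1, ku2, ku3, ku4⟩ := hζ' v hv
  have hTD := (h4 ε x y (ζ x) (ζ y) hε hz hw hfz hfw hxy kz4 kw4).1
  rw [connProb_eq hTD, connProb_eq hTD, twoPoint_eq hTD, twoPoint_eq hTD, twoPoint_eq hTD]
  have hmin1 : min c1 (min c2 c3) ≤ c1 := min_le_left _ _
  have hmin2 : min c1 (min c2 c3) ≤ c2 := (min_le_right _ _).trans (min_le_left _ _)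
  have hmin3 : min c1 (min c2 c3) ≤ c3 := (min_le_right _ _).trans (min_le_right _ _)
  have hmax1 : C1 ≤ max C1 (max C2 C3) := le_max_left _ _
  have hmax2 : C2 ≤ max C1 (max C2 C3) := (le_max_left _ _).trans (le_max_right _ _)
  have hmax3 : C3 ≤ max C1 (max C2 C3) := (le_max_right _ _).trans (le_max_right _ _)
  constructor
  · intro hcl
    obtain ⟨-, l, u⟩ := h1 ε X ζ x y v hε (fun u hu => ⟨(hζ' u hu).1, (hζ' u hu).2.1,
      (hζ' u hu).2.2.1⟩) hx hy hv hxy hxv hyv hcl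
    have h0 : 0 ≤ √(Run7.h663.PA.PP f ε x y * Run7.h663.PA.PP f ε x v /
        Run7.h663.PA.PP f ε y v) * Run7.h663.PA.KP f ε (X.erase x) :=
      mul_nonneg (Real.sqrt_nonneg _) (Run7.h663.PA.KP_nonneg _ _ _)
    exact ⟨(mul_le_mul_of_nonneg_right hmin1 h0).trans l,
      u.trans (mul_le_mul_of_nonneg_right hmax1 h0)⟩
  · rintro rfl
    obtain ⟨l, u⟩ := h2 ε x y v (ζ x) (ζ y) (ζ v) hε hz hw hu hfz hfw hfu hxy hxv hyv kz2 kw2 ku2
    obtain ⟨l', u'⟩ := h3 ε x y v (ζ x) (ζ y) (ζ v) hε hz hw hu hfz hfw hfu hxy hxv hyv kz3 kw3 ku3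
    have h0 : 0 ≤ √(Run7.h663.PA.PP f ε x y * Run7.h663.PA.PP f ε x v *
        Run7.h663.PA.PP f ε y v) := Real.sqrt_nonneg _
    refine ⟨⟨(mul_le_mul_of_nonneg_right hmin2 h0).trans l,
      u.trans (mul_le_mul_of_nonneg_right hmax2 h0)⟩, ?_⟩
    rw [hr _ hz, hr _ hw, hr _ hu]
    have h5 : 0 ≤ Run7.h663.PA.F3 ε (‖g (ζ x)‖ * (1 - ‖ζ x‖ ^ 2))
        (‖g (ζ y)‖ * (1 - ‖ζ y‖ ^ 2)) (‖g (ζ v)‖ * (1 - ‖ζ v‖ ^ 2))
        (Run7.h663.PA.ph (ζ x) (ζ y)) (Run7.h663.PA.ph (ζ x) (ζ v))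
        (Run7.h663.PA.ph (ζ y) (ζ v)) := by
      have := (Run7.h663.PA.KP_nonneg f ε {x, y, v}).trans u'
      exact nonneg_of_mul_nonneg_right this hC3
    exact ⟨(mul_le_mul_of_nonneg_right hmin3 h5).trans l',
      u'.trans (mul_le_mul_of_nonneg_right hmax3 h5)⟩

end Pool.Agent.Results.MP_b3e76a_pr.DomainConnectionFunctions
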