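import Pool.Agent.Run7.h729.Iso.Fy5

/-!
# The winding exponents of critical percolation in layered isoradial cylinders

Bond percolation on the universal cover of a cylinder of odd circumference `N = 2n+1`, in rotated
coordinates: the corners `(x, y)` of the unit squares (tiles) with `x + y` even are the vertices of the
lattice, the corners with `x + y` odd those of the dual lattice (across a seam the two lattices are
exchanged), and in every tile exactly one diagonal is open.  All tiles are independent.  There are `M`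
rows; the tiles of the row `t` have the isoradial probability `isoP θ_t` of an angle `θ_t`, where the
angles are arbitrary elements of `[0, π]`, in any order.  In the isoradial embedding the row `t`
consists of rhombi of side length one with the angle `θ_t`: it has the height `sin θ_t` and the
horizontal shift `-cos θ_t`.  At the bottom the arcs `[kN, kN + 2n]` are wired.

The cluster of the arc `[0, 2n]` crosses the cylinder; at the top it occupies the corners from `left`
to `left + 2n`.  In units in which the circumference is `2π` the height of the cylinder is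
`height = 2π/N ∑ sin θ_t`, and the horizontal displacement of the crossing is
`wnd = 2π/N (left - ∑ cos θ_t)`.  By `homHeight` we denote the height of the homogeneous rows (the rows
with `θ_t = π/2`, critical bond percolation on the square lattice with `p = 1/2`).

The theorem: for all small real `a` the characteristic function `E exp(i a wnd)` is
`A exp(-β height)` up to an error which is exponentially small in `homHeight`; here the amplitude `A`
depends neither on the environment nor on the number of rows and tends to one as `a → 0`, and the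
exponent `β` is `3 a²` up to an error which vanishes as the mesh tends to zero (explicit rates, uniform
in the environment).  In particular in all environments with a positive fraction of homogeneous rows
the winding exponents `-log |E exp(i a wnd)| / height` have the universal scaling limit `3 a²`: the
value of radial `SLE_6`, where the winding is a Brownian motion with the variance `6 · height`.
-/

set_option autoImplicit false

namespace Pool.Agent.Results.MP_b3e76a_pr.IsoradialExponents

open Filter Topology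

/-- configurations of `M` rows of the cylinder of circumference `2n+1`: the state of the tile `(j,t)`
(the unit square with lower left corner `(j,t)`) is `c t (j mod 2n+1)` -/
abbrev Conf (n M : ℕ) : Type := Fin M → Fin (2 * n + 1) → Bool

/-- adjacency of the corners in the strip of `M` rows of the universal cover: the open diagonal of the
tile `(j,t)` is `(j,t) - (j+1,t+1)` in the state `false` and `(j+1,t) - (j,t+1)` in the state
`true`; and at the bottom, in every period, the corners `2i` and `2i+2`, `i < n`, are joined -/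
def Adj (n M : ℕ) (c : Conf n M) (x y : ℤ × ℤ) : Prop :=
  (∃ (j : ℤ) (t : Fin M),
    (c t (H906K.jx (2 * n) j) = false ∧ x = (j, (t : ℤ)) ∧ y = (j + 1, (t : ℤ) + 1)) ∨
    (c t (H906K.jx (2 * n) j) = true ∧ x = (j + 1, (t : ℤ)) ∧ y = (j, (t : ℤ) + 1))) ∨
  ∃ (k : ℤ) (i : ℕ), i < n ∧ x = (k * (2 * n + 1) + 2 * i, 0) ∧
    y = (k * (2 * n + 1) + 2 * i + 2, 0)

/-- the corners `x`, `y` are joined by an open path -/
def Conn (n M : ℕ) (c : Conf n M) (x y : ℤ × ℤ) : Prop := Relation.EqvGen (Adj n M c) x y

/-- the leftmost corner at the top which is connected to the arc `[0, 2n]` of the bottom -/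
noncomputable def left (n M : ℕ) (c : Conf n M) : ℤ :=
  sInf {p : ℤ | Conn n M c (0, 0) (p, (M : ℤ))}

/-- the isoradial probability of the state `true` for the angle `θ`; it is `1/2` for `θ = π/2` -/
noncomputable def isoP (θ : ℝ) : ℝ :=
  Real.sin (θ / 3) / (Real.sin (θ / 3) + Real.sin ((Real.pi - θ) / 3))

/-- the winding: the horizontal displacement of the crossing in the isoradial embedding, in units in
which the circumference is `2π` -/
noncomputable def wnd {n M : ℕ} (θ : ℕ → ℝ) (c : Conf n M) : ℝ :=
  2 * Real.pi / (2 * n + 1) * (left n M c - ∑ t ∈ Finset.range M, Real.cos (θ t))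

/-- the height of the `M` rows, in units in which the circumference is `2π` -/
noncomputable def height (n : ℕ) (θ : ℕ → ℝ) (M : ℕ) : ℝ :=
  2 * Real.pi / (2 * n + 1) * ∑ t ∈ Finset.range M, Real.sin (θ t)

open Classical in
/-- the height of the homogeneous rows among the `M` rows -/
noncomputable def homHeight (n : ℕ) (θ : ℕ → ℝ) (M : ℕ) : ℝ :=
  2 * Real.pi * ((Finset.range M).filter fun t => θ t = Real.pi / 2).card / (2 * n + 1)

/-- the characteristic function of the winding: the mean value of `exp (i a wnd)` over the independent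
tiles of the `M` rows -/
noncomputable def chf (n : ℕ) (θ : ℕ → ℝ) (M : ℕ) (a : ℝ) : ℂ :=
  ∑ c : Conf n M, ((∏ t : Fin M, ∏ j, if c t j = true then isoP (θ t) else 1 - isoP (θ t) : ℝ) : ℂ)
    * Complex.exp (((a * wnd θ c : ℝ) : ℂ) * Complex.I)

theorem chf_eq {n : ℕ} (hn : 1 ≤ n) (θ : ℕ → ℝ) (M : ℕ) (a : ℝ) :
    chf n θ M a = H729I.EE (H729I.det n θ) M (fun c =>
      Complex.exp (((a * (2 * Real.pi / (2 * n + 1) * (H729I.dis c - H729I.cosS θ M)) : ℝ) : ℂ)
        * Complex.I)) := by
  unfold chf H729I.EE
  refine Finset.sum_congr rfl fun c _ => ?_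
  have h3 : H729I.dis c = (left n M c : ℝ) := H729I.dis_left hn c
  beta_reduce
  rw [h3, Complex.real_smul]
  rfl

theorem result :
    (∀ (n M : ℕ) (c : Conf n M), 1 ≤ n →
      Conn n M c (0, 0) (left n M c, M) ∧ Conn n M c (0, 0) (left n M c + 2 * n, M) ∧
      ∀ p : ℤ, Conn n M c (0, 0) (p, M) → left n M c ≤ p ∧ p ≤ left n M c + 2 * n) ∧
    (∃ ρ C δ : ℝ, 0 < ρ ∧ 0 < δ ∧ ∀ n : ℕ, 1 ≤ n → ∀ a : ℝ, |a| ≤ ρ → ∃ A : ℂ,
      ‖A - 1‖ ≤ C * √|a| ∧ ∀ θ : ℕ → ℝ, (∀ t, θ t ∈ Set.Icc 0 Real.pi) → ∀ M : ℕ, ∃ β : ℂ,
        ‖β - 3 * a ^ 2‖ ≤ C * (|a| / (2 * n + 1) ^ 2 + a ^ 2 / (2 * n + 1)) ∧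
        ‖chf n θ M a - A * Complex.exp (-β * (height n θ M : ℝ))‖
          ≤ C * Real.exp (-δ * homHeight n θ M)) ∧
    ∀ η : ℝ, 0 < η → ∃ ρ : ℝ, 0 < ρ ∧ ∀ a : ℝ, |a| ≤ ρ → ∀ ε : ℝ, 0 < ε → ∃ n₀ : ℕ, ∃ T₀ : ℝ,
      ∀ (n M : ℕ) (θ : ℕ → ℝ), (∀ t, θ t ∈ Set.Icc 0 Real.pi) → n₀ ≤ n → T₀ ≤ height n θ M →
        η * height n θ M ≤ homHeight n θ M →
          Real.exp (-(3 * a ^ 2 + ε) * height n θ M) ≤ ‖chf n θ M a‖ ∧
          ‖chf n θ M a‖ ≤ Real.exp (-(3 * a ^ 2 - ε) * height n θ M) := by
  refine ⟨?_, ?_, ?_⟩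
  · intro n M c hn
    have hL : left n M c = Y994.KW.X n M c := Y994.KW.Lft_eq Y994.KW.All.CRS n M c hn
    obtain ⟨h1, h2, h3⟩ := Y994.KW.All.CRS n M c hn
    rw [hL]
    exact ⟨h1, h2, h3⟩
  · obtain ⟨ρ, C, δ, hρ, -, hδ, h⟩ := H729I.wind_env
    refine ⟨ρ, C, δ, hρ, hδ, fun n hn a ha => ?_⟩
    obtain ⟨A, h1, h2⟩ := h n hn a ha
    refine ⟨A, h1, fun θ hθ M => ?_⟩
    obtain ⟨β, h3, h4⟩ := h2 θ hθ M
    refine ⟨β, h3, ?_⟩
    rw [chf_eq hn]
    exact h4
  · intro η hη
    obtain ⟨ρ, hρ, h⟩ := H729I.wind_env_exp hη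
    refine ⟨ρ, hρ, fun a ha ε hε => ?_⟩
    obtain ⟨n₀, T₀, h1⟩ := h a ha ε hε
    refine ⟨max n₀ 1, T₀, fun n M θ hθ hn hT hfr => ?_⟩
    rw [chf_eq ((le_max_right _ _).trans hn)]
    exact h1 n M θ hθ ((le_max_left _ _).trans hn) hT hfr

end Pool.Agent.Results.MP_b3e76a_pr.IsoradialExponents
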