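import Pool.Agent.Run7.h729.Iso.Var
import Pool.Agent.Run7.h729.Iso.Fin

/-!
# The winding of critical percolation crossings at the natural scale, in layered isoradial cylinders

Bond percolation on the universal cover of a cylinder of odd circumference `N = 2n+1`, in rotated
coordinates: the corners `(x, y)` of the unit squares (tiles) with `x + y` even are the vertices of the
lattice, the corners with `x + y` odd those of the dual lattice (across a seam the two lattices are
exchanged), and in every tile exactly one diagonal is open.  All tiles are independent.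

Below the height `0` the cylinder is homogeneous (`p = 1/2`) with `K` rows; above there are `M` rows,
and the tiles of the row `t` have the isoradial probability `isoP θ_t` of an angle `θ_t`, where the
angles are arbitrary elements of `[0, π]`.  In the isoradial embedding the row `t` consists of rhombi of
side length one with the angle `θ_t`: it has the height `sin θ_t` and the horizontal shift `-cos θ_t`.
In units in which the circumference is `2π` the height of the rows `A ≤ t < B` is
`height A B = 2π/N ∑ sin θ_t`, and the horizontal displacement of the crossings in these rows is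
`wnd A B = 2π/N (displacement - ∑ cos θ_t)`.

The theorem: an explicit estimate, uniform in the circumference, in the environment, in the number of
rows and in the number `r` of increments, for the joint characteristic function of the increments
`wnd (τ i) (τ (i+1))`, `i < r`: it is that of the increments of a Brownian motion of variance `6` at the
times of the isoradial height, up to an error which is small as soon as the arguments `a_i` are
small, `K/N` is large and the heights are small with respect to `N⁴`.  So after diffusive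
rescaling the winding is a Brownian motion with the diffusivity `κ = 6`, at the natural scale, where
the heights are large but otherwise comparable with the circumference.  Moreover the mean and the
variance without rescaling.
-/

set_option autoImplicit false

namespace Pool.Agent.Results.MP_b3e76a_pr.IsoradialGaussian

open Filter Topology

/-- configurations of `L` rows of the cylinder of circumference `2n+1`: the state of the tile `(j,t)`
(the unit square with lower left corner `(j,t)`) is `c t (j mod 2n+1)` -/
abbrev Conf (n L : ℕ) : Type := Fin L → Fin (2 * n + 1) → Bool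

/-- adjacency of the corners in the strip of `L` rows of the universal cover: the open diagonal of the
tile `(j,t)` is `(j,t) - (j+1,t+1)` in the state `false` and `(j+1,t) - (j,t+1)` in the state
`true`; and at the bottom, in every period, the corners `2i` and `2i+2`, `i < n`, are joined -/
def Adj (n L : ℕ) (c : Conf n L) (x y : ℤ × ℤ) : Prop :=
  (∃ (j : ℤ) (t : Fin L),
    (c t (H906K.jx (2 * n) j) = false ∧ x = (j, (t : ℤ)) ∧ y = (j + 1, (t : ℤ) + 1)) ∨
    (c t (H906K.jx (2 * n) j) = true ∧ x = (j + 1, (t : ℤ)) ∧ y = (j, (t : ℤ) + 1))) ∨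
  ∃ (k : ℤ) (i : ℕ), i < n ∧ x = (k * (2 * n + 1) + 2 * i, 0) ∧
    y = (k * (2 * n + 1) + 2 * i + 2, 0)

/-- the corners `x`, `y` are joined by an open path -/
def Conn (n L : ℕ) (c : Conf n L) (x y : ℤ × ℤ) : Prop := Relation.EqvGen (Adj n L c) x y

/-- the leftmost corner at the top which is connected to the arc `[0, 2n]` of the bottom -/
noncomputable def left (n L : ℕ) (c : Conf n L) : ℤ :=
  sInf {p : ℤ | Conn n L c (0, 0) (p, (L : ℤ))}

/-- the first `K` rows -/
def rows {n L : ℕ} (c : Conf n L) (K : ℕ) : Conf n K :=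
  fun t j => if h : (t : ℕ) < L then c ⟨t, h⟩ j else false

/-- the isoradial probability of the state `true` for the angle `θ`; it is `1/2` for `θ = π/2` -/
noncomputable def isoP (θ : ℝ) : ℝ :=
  Real.sin (θ / 3) / (Real.sin (θ / 3) + Real.sin ((Real.pi - θ) / 3))

/-- the angles: `K` homogeneous rows, then the environment `θ` -/
noncomputable def angle (K : ℕ) (θ : ℕ → ℝ) (t : ℕ) : ℝ :=
  if t < K then Real.pi / 2 else θ (t - K)

/-- the mean value over the independent tiles of `K + M` rows, of a function with values in a real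
vector space -/
noncomputable def mean {V : Type*} [AddCommGroup V] [Module ℝ V] {n : ℕ} (θ : ℕ → ℝ) (K M : ℕ)
    (F : Conf n (K + M) → V) : V :=
  ∑ c, (∏ t : Fin (K + M), ∏ j, if c t j = true then isoP (angle K θ t)
    else 1 - isoP (angle K θ t)) • F c

/-- the height of the rows `A ≤ t < B` of the environment, in units in which the circumference is
`2π` -/
noncomputable def height (n : ℕ) (θ : ℕ → ℝ) (A B : ℕ) : ℝ :=
  2 * Real.pi / (2 * n + 1) * ∑ t ∈ Finset.Ico A B, Real.sin (θ t)

/-- the winding: the horizontal displacement, in the isoradial embedding, of the crossings in the rows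
`A ≤ t < B` of the environment, in units in which the circumference is `2π` -/
noncomputable def wnd {n L : ℕ} (θ : ℕ → ℝ) (K A B : ℕ) (c : Conf n L) : ℝ :=
  2 * Real.pi / (2 * n + 1) * ((left n (K + B) (rows c (K + B)) : ℝ)
    - left n (K + A) (rows c (K + A)) - ∑ t ∈ Finset.Ico A B, Real.cos (θ t))

theorem mean_eq {V : Type*} [AddCommGroup V] [Module ℝ V] {n : ℕ} (θ : ℕ → ℝ) (K M : ℕ)
    (F : Conf n (K + M) → V) :
    mean θ K M F = H729I.EE (H729I.det n (H729I.cat K θ)) (K + M) F := rfl

theorem wnd_eq {n L : ℕ} (hn : 1 ≤ n) (θ : ℕ → ℝ) (K A B : ℕ) (c : Conf n L) :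
    wnd θ K A B c = H729I.wph θ K A B c := by
  have h1 := H729I.dis_left hn (H729I.rows c (K + B))
  have h2 := H729I.dis_left hn (H729I.rows c (K + A))
  unfold H729I.wph
  rw [h1, h2]
  rfl

theorem result :
    (∀ (n L : ℕ) (c : Conf n L), 1 ≤ n →
      Conn n L c (0, 0) (left n L c, L) ∧ Conn n L c (0, 0) (left n L c + 2 * n, L) ∧
      ∀ p : ℤ, Conn n L c (0, 0) (p, L) → left n L c ≤ p ∧ p ≤ left n L c + 2 * n) ∧
    (∃ C δ : ℝ, 0 < δ ∧ ∀ (n : ℕ), 1 ≤ n → ∀ θ : ℕ → ℝ, (∀ t, θ t ∈ Set.Icc 0 Real.pi) →
      ∀ (K M : ℕ) (τ : ℕ → ℕ), Monotone τ → ∀ (a : ℕ → ℝ) (r : ℕ), τ r ≤ M →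
        ‖mean θ K M (fun c : Conf n (K + M) =>
              Complex.exp (((∑ i ∈ Finset.range r, a i * wnd θ K (τ i) (τ (i + 1)) c : ℝ) : ℂ)
                * Complex.I))
            - Complex.exp (((-(3 * ∑ i ∈ Finset.range r,
                a i ^ 2 * height n θ (τ i) (τ (i + 1)))) : ℝ) : ℂ)‖
          ≤ C * ∑ i ∈ Finset.range r, (√|a i| + |a i| ^ 3 * height n θ (τ i) (τ (i + 1))
            + |a i| * height n θ (τ i) (τ (i + 1)) / (2 * n + 1) ^ 2
            + a i ^ 2 * height n θ (τ i) (τ (i + 1)) / (2 * n + 1)
            + Real.exp (-δ * (K / (2 * n + 1))))) ∧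
    ∃ C : ℝ, ∀ (n : ℕ), 1 ≤ n → ∀ θ : ℕ → ℝ, (∀ t, θ t ∈ Set.Icc 0 Real.pi) → ∀ M : ℕ,
      ∃ K₀ : ℕ, ∀ K ≥ K₀,
        |mean θ K M (fun c : Conf n (K + M) => wnd θ K 0 M c)|
          ≤ C * (1 + height n θ 0 M) / (2 * n + 1) ^ 2 ∧
        |√(mean θ K M (fun c : Conf n (K + M) => wnd θ K 0 M c ^ 2)) - √(6 * height n θ 0 M)|
          ≤ C * (1 + √(height n θ 0 M) / (2 * n + 1) + height n θ 0 M / (2 * n + 1) ^ 2) := by
  refine ⟨?_, ?_, ?_⟩
  · intro n M c hn
    have hL : left n M c = Y994.KW.X n M c := Y994.KW.Lft_eq Y994.KW.All.CRS n M c hn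
    obtain ⟨h1, h2, h3⟩ := Y994.KW.All.CRS n M c hn
    rw [hL]
    exact ⟨h1, h2, h3⟩
  · obtain ⟨C, δ, -, hδ, h⟩ := H729I.fdd_nat
    refine ⟨C, δ, hδ, fun n hn θ hθ K M τ hτ a r hr => ?_⟩
    have := h n hn θ hθ K (K + M) τ hτ a r (by omega)
    rw [mean_eq]
    have e : (fun c : Conf n (K + M) =>
        Complex.exp (((∑ i ∈ Finset.range r, a i * wnd θ K (τ i) (τ (i + 1)) c : ℝ) : ℂ)
          * Complex.I)) = fun c => Complex.exp (((∑ i ∈ Finset.range r, a i
            * H729I.wph θ K (τ i) (τ (i + 1)) c : ℝ) : ℂ) * Complex.I) := by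
      funext c
      simp only [wnd_eq hn]
    rw [e]
    exact this
  · obtain ⟨C, h⟩ := H729I.var_nat
    refine ⟨C, fun n hn θ hθ M => ?_⟩
    obtain ⟨K0, hK0⟩ := h n hn θ hθ M
    refine ⟨K0, fun K hK => ?_⟩
    obtain ⟨h1, h2⟩ := hK0 K hK
    have e1 : (fun c : Conf n (K + M) => wnd θ K 0 M c) = fun c => H729I.wph θ K 0 M c := by
      funext c; exact wnd_eq hn θ K 0 M c
    have e2 : (fun c : Conf n (K + M) => wnd θ K 0 M c ^ 2) = fun c => H729I.wph θ K 0 M c ^ 2 := by
      funext c; rw [wnd_eq hn θ K 0 M c]
    rw [mean_eq, mean_eq, e1, e2]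
    exact ⟨h1, h2⟩

end Pool.Agent.Results.MP_b3e76a_pr.IsoradialGaussian
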